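import Pool.Agent.H41.HKB.Targets

/-!
# MP_bd932b_co, board hkb, row EMB: greedy completion of a partial choice of connectors
-/

set_option autoImplicit false

namespace Pool.Agent.H52.HKB

open Finset Pool.Agent.H42.BD Pool.Agent.H41.HKB
open scoped Classical

theorem pf_EMB : T_EMB := by
  intro k V _ G x y L z hy hxy hL hLi hcd
  have key : ∀ T : Finset (Pr k), ∃ z' : Pr k → V,
      (∀ p ∈ L ∪ T, z' p ≠ x ∧ (∀ i, z' p ≠ y i) ∧ ∀ i ∈ p.1, G.Adj (y i) (z' p)) ∧
      ∀ p ∈ L ∪ T, ∀ q ∈ L ∪ T, z' p = z' q → p = q := by
    intro T
    induction T using Finset.induction_on with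
    | empty =>
      rw [Finset.union_empty]
      exact ⟨z, hL, hLi⟩
    | insert p T _ ih =>
      obtain ⟨z', h1, h2⟩ := ih
      by_cases hp : p ∈ L ∪ T
      · have e : L ∪ insert p T = L ∪ T := by
          rw [Finset.union_insert, Finset.insert_eq_of_mem hp]
        rw [e]
        exact ⟨z', h1, h2⟩
      · obtain ⟨i, j, hij, hpe⟩ := Finset.card_eq_two.1 p.2
        have hno : ∀ q ∈ L, ¬ (i ∈ q.1 ∧ j ∈ q.1) := by
          rintro q hq ⟨hi, hj⟩
          have hsub : p.1 ⊆ q.1 := by
            rw [hpe]
            intro m hm
            rcases Finset.mem_insert.1 hm with h | h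
            · rw [h]; exact hi
            · rw [Finset.mem_singleton.1 h]; exact hj
          have he : p.1 = q.1 :=
            Finset.eq_of_subset_of_card_le hsub (by rw [p.2, q.2])
          exact hp (Finset.mem_union_left _ ((Subtype.ext he : p = q) ▸ hq))
        have hc := hcd i j hij hno
        have hF : (insert x (univ.image y ∪ (L ∪ T).image z')).card < hk k := by
          have a1 := Finset.card_insert_le x (univ.image y ∪ (L ∪ T).image z')
          have a2 := Finset.card_union_le (univ.image y) ((L ∪ T).image z')
          have a3 := Finset.card_image_le (s := (univ : Finset (Fin k))) (f := y)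
          have a4 := Finset.card_image_le (s := L ∪ T) (f := z')
          have a5 : (L ∪ T).card < Fintype.card (Pr k) := Finset.card_lt_univ_of_notMem hp
          have a6 : Fintype.card (Pr k) = k.choose 2 := by
            have := Fintype.card_finset_len (α := Fin k) 2
            rw [Fintype.card_fin] at this
            exact this
          rw [Finset.card_univ, Fintype.card_fin] at a3
          unfold hk
          omega
        have hlt := lt_of_lt_of_le hF hc
        obtain ⟨z0, hz0, hz0F⟩ := Finset.exists_mem_notMem_of_card_lt_card hlt
        rw [mem_cn] at hz0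
        simp only [Finset.mem_insert, Finset.mem_union, Finset.mem_image, Finset.mem_univ,
          true_and, not_or, not_exists, not_and] at hz0F
        obtain ⟨f1, f2, f3⟩ := hz0F
        refine ⟨Function.update z' p z0, ?_, ?_⟩
        · intro q hq
          by_cases hqp : q = p
          · subst hqp
            rw [Function.update_self]
            refine ⟨f1, fun m h => f2 m h.symm, fun m hm => ?_⟩
            rw [hpe] at hm
            rcases Finset.mem_insert.1 hm with h | h
            · rw [h]; exact hz0.1
            · rw [Finset.mem_singleton.1 h]; exact hz0.2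
          · rw [Function.update_of_ne hqp]
            refine h1 q ?_
            rw [Finset.union_insert, Finset.mem_insert] at hq
            exact hq.resolve_left hqp
        · have hmem : ∀ q, q ∈ L ∪ insert p T → q ≠ p → q ∈ L ∪ T := by
            intro q hq hqp
            rw [Finset.union_insert, Finset.mem_insert] at hq
            exact hq.resolve_left hqp
          intro q hq r hr he
          by_cases hqp : q = p <;> by_cases hrp : r = p
          · rw [hqp, hrp]
          · rw [hqp, Function.update_self, Function.update_of_ne hrp] at he
            exact absurd he.symm (f3 r (Finset.mem_union.1 (hmem r hr hrp)))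
          · rw [hrp, Function.update_self, Function.update_of_ne hqp] at he
            exact absurd he (f3 q (Finset.mem_union.1 (hmem q hq hqp)))
          · rw [Function.update_of_ne hqp, Function.update_of_ne hrp] at he
            exact h2 q (hmem q hq hqp) r (hmem r hr hrp) he
  obtain ⟨z', h1, h2⟩ := key univ
  have hall : ∀ p : Pr k, p ∈ L ∪ univ := fun p => Finset.mem_union_right _ (Finset.mem_univ p)
  exact contained_of x y z' hy (fun p q h => h2 p (hall p) q (hall q) h) hxy
    (fun p i hi => (h1 p (hall p)).2.2 i hi) (fun p => (h1 p (hall p)).1)
    fun p i => (h1 p (hall p)).2.1 i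

end Pool.Agent.H52.HKB
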