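import Pool.Agent.H41.HKB.Targets

/-!
# MP_bd932b_co, board hkb, row INC: few bad tuples
-/

set_option autoImplicit false

namespace Pool.Agent.H52.HKB

open Finset Pool.Agent.H42.BD Pool.Agent.H41.HKB
open scoped Classical

variable {V : Type} [Fintype V]

/-- the bad tuples for given places -/
noncomputable def S3 (k T : ℕ) (ε : ℝ) (G : SimpleGraph V) (y : V) (i j l : Fin k) :
    Finset (Fin k → V) :=
  univ.filter fun f => (∀ m, f m ∈ nb G y) ∧ cd G (f i) (f j) < hk k ∧
    ∃ y', Im T ε G y y' ∧ f i ∈ cn G y y' ∧ f j ∈ cn G y y' ∧ (f l ∈ cn G y y' ∨ f l = y')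

/-- the possible values at the third place -/
noncomputable def U3 (T : ℕ) (ε : ℝ) (G : SimpleGraph V) (y u v : V) : Finset V :=
  ((cn G u v).filter fun y' => Im T ε G y y').biUnion fun y' => insert y' (cn G y y')

theorem U3_card (T : ℕ) {ε : ℝ} (hε : 0 ≤ ε) (G : SimpleGraph V) (y u v : V) :
    ((U3 T ε G y u v).card : ℝ) ≤ (cd G u v : ℝ) * (ε * sn V + 1) := by
  have hs : 0 ≤ ε * sn V + 1 := by
    have : 0 ≤ sn V := Real.sqrt_nonneg _
    positivity
  have h1 : ((U3 T ε G y u v).card : ℝ) ≤
      ∑ y' ∈ (cn G u v).filter (fun y' => Im T ε G y y'), ((insert y' (cn G y y')).card : ℝ) := by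
    exact_mod_cast Finset.card_biUnion_le
  refine h1.trans ?_
  have h2 : ∀ y' ∈ (cn G u v).filter (fun y' => Im T ε G y y'),
      ((insert y' (cn G y y')).card : ℝ) ≤ ε * sn V + 1 := by
    intro y' hy'
    have h3 := (Finset.mem_filter.1 hy').2.2.2
    have h4 : ((insert y' (cn G y y')).card : ℝ) ≤ ((cn G y y').card : ℝ) + 1 := by
      exact_mod_cast Finset.card_insert_le _ _
    have h5 : ((cn G y y').card : ℝ) < ε * sn V := h3
    linarith
  refine (Finset.sum_le_sum h2).trans ?_
  rw [Finset.sum_const, nsmul_eq_mul]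
  refine mul_le_mul_of_nonneg_right ?_ hs
  exact_mod_cast Finset.card_le_card (Finset.filter_subset _ _)

theorem S3_card (k T : ℕ) {ε : ℝ} (hε : 0 ≤ ε) (G : SimpleGraph V) (y : V) (i j l : Fin k)
    (hli : l ≠ i) (hlj : l ≠ j) :
    ((S3 k T ε G y i j l).card : ℝ) ≤
      hk k * (ε * sn V + 1) * ((nb G y).card : ℝ) ^ (k - 1) := by
  have hs : 0 ≤ ε * sn V + 1 := by
    have : 0 ≤ sn V := Real.sqrt_nonneg _
    positivity
  set J : Finset (Fin k → V) := Fintype.piFinset fun m => if m = l then {y} else nb G y with hJ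
  have hJc : (J.card : ℝ) = ((nb G y).card : ℝ) ^ (k - 1) := by
    have h1 : J.card = (nb G y).card ^ (k - 1) := by
      rw [hJ, Fintype.card_piFinset]
      have h2 : ∀ m : Fin k, (if m = l then ({y} : Finset V) else nb G y).card =
          if m = l then 1 else (nb G y).card := by
        intro m
        split_ifs <;> simp
      rw [Finset.prod_congr rfl fun m _ => h2 m, Finset.prod_ite, Finset.prod_const_one, one_mul,
        Finset.prod_const]
      congr 1
      rw [Finset.filter_not, Finset.card_sdiff_of_subset (Finset.filter_subset _ _),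
        Finset.filter_eq' univ l, if_pos (Finset.mem_univ l), Finset.card_singleton,
        Finset.card_univ, Fintype.card_fin]
    rw [h1]
    push_cast
    rfl
  have hmap : ∀ f ∈ S3 k T ε G y i j l, Function.update f l y ∈ J := by
    intro f hf
    rw [hJ, Fintype.mem_piFinset]
    intro m
    by_cases hm : m = l
    · subst hm
      simp
    · rw [if_neg hm, Function.update_of_ne hm]
      exact (Finset.mem_filter.1 hf).2.1 m
  have hcard : ((S3 k T ε G y i j l).card : ℝ) =
      ∑ g ∈ J, (((S3 k T ε G y i j l).filter fun f => Function.update f l y = g).card : ℝ) := by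
    rw [Finset.card_eq_sum_card_fiberwise (f := fun f => Function.update f l y) (t := J)
      (fun f hf => hmap f hf)]
    push_cast
    rfl
  have hfib : ∀ g ∈ J,
      (((S3 k T ε G y i j l).filter fun f => Function.update f l y = g).card : ℝ) ≤
        hk k * (ε * sn V + 1) := by
    intro g _
    rcases ((S3 k T ε G y i j l).filter fun f => Function.update f l y = g).eq_empty_or_nonempty
      with h0 | ⟨f0, hf0⟩
    · rw [h0]
      simp only [Finset.card_empty, Nat.cast_zero]
      positivity
    · have hval : ∀ f ∈ (S3 k T ε G y i j l).filter fun f => Function.update f l y = g,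
          f i = g i ∧ f j = g j := by
        intro f hf
        have he := (Finset.mem_filter.1 hf).2
        constructor
        · rw [← he, Function.update_of_ne (Ne.symm hli)]
        · rw [← he, Function.update_of_ne (Ne.symm hlj)]
      have hc0 : cd G (g i) (g j) < hk k := by
        obtain ⟨e1, e2⟩ := hval f0 hf0
        rw [← e1, ← e2]
        exact (Finset.mem_filter.1 (Finset.mem_filter.1 hf0).1).2.2.1
      have h1 : ((S3 k T ε G y i j l).filter fun f => Function.update f l y = g).card ≤
          (U3 T ε G y (g i) (g j)).card := by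
        refine Finset.card_le_card_of_injOn (fun f => f l) ?_ ?_
        · intro f hf
          obtain ⟨e1, e2⟩ := hval f (Finset.mem_coe.1 hf)
          obtain ⟨_, _, y', hI, hi, hj, hl⟩ :=
            (Finset.mem_filter.1 (Finset.mem_filter.1 (Finset.mem_coe.1 hf)).1).2
          rw [e1, mem_cn] at hi
          rw [e2, mem_cn] at hj
          refine Finset.mem_coe.2 (Finset.mem_biUnion.2 ⟨y', Finset.mem_filter.2
            ⟨mem_cn.2 ⟨hi.2.symm, hj.2.symm⟩, hI⟩, ?_⟩)
          rcases hl with h | h
          · exact Finset.mem_insert_of_mem h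
          · change f l ∈ _
            rw [h]
            exact Finset.mem_insert_self _ _
        · intro f hf f' hf' he
          have e1 := (Finset.mem_filter.1 (Finset.mem_coe.1 hf)).2
          have e2 := (Finset.mem_filter.1 (Finset.mem_coe.1 hf')).2
          funext m
          by_cases hm : m = l
          · subst hm
            exact he
          · have e3 : Function.update f l y m = Function.update f' l y m := by rw [e1, e2]
            rwa [Function.update_of_ne hm, Function.update_of_ne hm] at e3
      have h2 : (((S3 k T ε G y i j l).filter fun f => Function.update f l y = g).card : ℝ) ≤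
          ((U3 T ε G y (g i) (g j)).card : ℝ) := by exact_mod_cast h1
      refine h2.trans ((U3_card T hε G y (g i) (g j)).trans ?_)
      refine mul_le_mul_of_nonneg_right ?_ hs
      exact_mod_cast hc0.le
  rw [hcard]
  refine (Finset.sum_le_sum hfib).trans ?_
  rw [Finset.sum_const, nsmul_eq_mul, hJc, mul_comm]

theorem pf_INC : T_INC := by
  intro k T ε V _ G y hε
  have hs : 0 ≤ ε * sn V + 1 := by
    have : 0 ≤ sn V := Real.sqrt_nonneg _
    positivity
  set TR : Finset (Fin k × Fin k × Fin k) :=
    univ.filter fun t => t.2.2 ≠ t.1 ∧ t.2.2 ≠ t.2.1 with hTR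
  have hsub : ((univ : Finset (Fin k → V)).filter
      fun f => (∀ i, f i ∈ nb G y) ∧ BadI k T ε G y f) ⊆
      TR.biUnion fun t => S3 k T ε G y t.1 t.2.1 t.2.2 := by
    intro f hf
    obtain ⟨hfn, i, j, l, _, hli, hlj, hc, y', h⟩ := (Finset.mem_filter.1 hf).2
    refine Finset.mem_biUnion.2 ⟨(i, j, l), Finset.mem_filter.2 ⟨Finset.mem_univ _, hli, hlj⟩, ?_⟩
    exact Finset.mem_filter.2 ⟨Finset.mem_univ _, hfn, hc, y', h⟩
  have h1 : ((((univ : Finset (Fin k → V)).filter
      fun f => (∀ i, f i ∈ nb G y) ∧ BadI k T ε G y f).card : ℕ) : ℝ) ≤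
      ∑ t ∈ TR, ((S3 k T ε G y t.1 t.2.1 t.2.2).card : ℝ) := by
    exact_mod_cast (Finset.card_le_card hsub).trans Finset.card_biUnion_le
  have h2 : ∀ t ∈ TR, ((S3 k T ε G y t.1 t.2.1 t.2.2).card : ℝ) ≤
      hk k * (ε * sn V + 1) * ((nb G y).card : ℝ) ^ (k - 1) := by
    intro t ht
    obtain ⟨_, ha, hb⟩ := Finset.mem_filter.1 ht
    exact S3_card k T hε G y t.1 t.2.1 t.2.2 ha hb
  have h3 : (TR.card : ℝ) ≤ (k : ℝ) ^ 3 := by
    have h4 : TR.card ≤ k ^ 3 := by
      refine (Finset.card_le_univ _).trans ?_
      rw [Fintype.card_prod, Fintype.card_prod, Fintype.card_fin]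
      apply le_of_eq
      ring
    exact_mod_cast h4
  refine h1.trans ((Finset.sum_le_sum h2).trans ?_)
  rw [Finset.sum_const, nsmul_eq_mul]
  calc (TR.card : ℝ) * (hk k * (ε * sn V + 1) * ((nb G y).card : ℝ) ^ (k - 1)) ≤
      (k : ℝ) ^ 3 * (hk k * (ε * sn V + 1) * ((nb G y).card : ℝ) ^ (k - 1)) :=
        mul_le_mul_of_nonneg_right h3 (by positivity)
    _ = _ := by ring

end Pool.Agent.H52.HKB
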