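import Pool.Agent.H41.HKB.Targets

/-!
# MP_bd932b_co, board hkb, row IND: cliques of `Qr` are bad
-/

set_option autoImplicit false

namespace Pool.Agent.H52.HKB

open Finset Pool.Agent.H42.BD Pool.Agent.H41.HKB
open scoped Classical

theorem pf_IND : T_IND := by
  intro k T ε V _ G y f hfree hf hQ
  by_contra hb
  have hex : ∀ p : Pr k, ∃ y' : V, Im T ε G y y' ∧ (∀ m ∈ p.1, f m ∈ cn G y y') ∧
      ∃ i j : Fin k, i ≠ j ∧ i ∈ p.1 ∧ j ∈ p.1 ∧ cd G (f i) (f j) < hk k := by
    intro p
    obtain ⟨i, j, hij, hpe⟩ := Finset.card_eq_two.1 p.2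
    have hi : i ∈ p.1 := by rw [hpe]; exact Finset.mem_insert_self _ _
    have hj : j ∈ p.1 := by rw [hpe]; exact Finset.mem_insert_of_mem (Finset.mem_singleton_self _)
    rcases lt_or_gt_of_ne hij with h | h
    · obtain ⟨_, hc, y', hI, h1, h2⟩ := hQ i j h
      refine ⟨y', hI, fun m hm => ?_, i, j, hij, hi, hj, hc⟩
      rw [hpe] at hm
      rcases Finset.mem_insert.1 hm with e | e
      · rw [e]; exact h1
      · rw [Finset.mem_singleton.1 e]; exact h2
    · obtain ⟨_, hc, y', hI, h1, h2⟩ := hQ j i h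
      refine ⟨y', hI, fun m hm => ?_, j, i, hij.symm, hj, hi, hc⟩
      rw [hpe] at hm
      rcases Finset.mem_insert.1 hm with e | e
      · rw [e]; exact h2
      · rw [Finset.mem_singleton.1 e]; exact h1
  choose z hI hm hij using hex
  -- nothing else is in the common neighbourhoods
  have hout : ∀ (p : Pr k) (l : Fin k), l ∉ p.1 → ¬ (f l ∈ cn G y (z p) ∨ f l = z p) := by
    intro p l hl h
    obtain ⟨i, j, hne, hi, hj, hc⟩ := hij p
    exact hb ⟨i, j, l, hne, fun e => hl (e ▸ hi), fun e => hl (e ▸ hj), hc, z p, hI p,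
      hm p i hi, hm p j hj, h⟩
  have hfi : Function.Injective f := by
    intro i j he
    by_contra hne
    rcases lt_or_gt_of_ne hne with h | h
    · exact (hQ i j h).1 he
    · exact (hQ j i h).1 he.symm
  have hzi : Function.Injective z := by
    intro p q he
    by_contra hne
    have hns : ¬ q.1 ⊆ p.1 := by
      intro hsub
      have := Finset.eq_of_subset_of_card_le hsub (by rw [p.2, q.2])
      exact hne (Subtype.ext this.symm)
    obtain ⟨l, hlq, hlp⟩ := Finset.not_subset.1 hns
    refine hout p l hlp (Or.inl ?_)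
    rw [he]
    exact hm q l hlq
  refine hfree (contained_of y f z hfi hzi (fun i => mem_nb.1 (hf i)) (fun p i hi => ?_)
    (fun p => (hI p).1.symm) fun p i h => ?_)
  · exact (mem_cn.1 (hm p i hi)).2.symm
  · by_cases hi : i ∈ p.1
    · exact (mem_cn.1 (hm p i hi)).2.ne h
    · exact hout p i hi (Or.inr h.symm)

end Pool.Agent.H52.HKB
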