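import Pool.Agent.H41.HKB.Targets

/-!
# MP_bd932b_co, board hkb, row SPL: the cleaning costs little
-/

set_option autoImplicit false

namespace Pool.Agent.H52.HKB

open Finset Pool.Agent.H42.BD Pool.Agent.H41.HKB
open scoped Classical

variable {V : Type} [Fintype V]

/-- indicator -/
noncomputable def ch (P : Prop) : ℝ := if P then 1 else 0

theorem ch_nonneg (P : Prop) : 0 ≤ ch P := by
  unfold ch
  split_ifs <;> norm_num

theorem ch_true {P : Prop} (h : P) : ch P = 1 := if_pos h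

theorem ch_false {P : Prop} (h : ¬ P) : ch P = 0 := if_neg h

theorem sum_ch (S : Finset V) : ∑ y : V, ch (y ∈ S) = (S.card : ℝ) := by
  have h := Finset.sum_subset (Finset.subset_univ S) (f := fun y => ch (y ∈ S))
    fun y _ hy => ch_false hy
  rw [← h, Finset.sum_congr rfl fun y hy => ch_true hy, Finset.sum_const, nsmul_eq_mul, mul_one]

theorem pair_sum (G : SimpleGraph V) (P : Prop) (u v : V) :
    ∑ x : V, ∑ z : V, ch (P ∧ u ∈ cn G x z ∧ v ∈ cn G x z) = ch P * (cd G u v : ℝ) ^ 2 := by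
  have h1 : ∀ x z : V, ch (P ∧ u ∈ cn G x z ∧ v ∈ cn G x z) =
      ch P * (ch (x ∈ cn G u v) * ch (z ∈ cn G u v)) := by
    intro x z
    have h2 : (u ∈ cn G x z ∧ v ∈ cn G x z) ↔ (x ∈ cn G u v ∧ z ∈ cn G u v) := by
      simp only [mem_cn, G.adj_comm u x, G.adj_comm v x, G.adj_comm u z, G.adj_comm v z]
      tauto
    by_cases hP : P
    · by_cases hx : x ∈ cn G u v
      · by_cases hz : z ∈ cn G u v
        · rw [ch_true ⟨hP, h2.2 ⟨hx, hz⟩⟩, ch_true hP, ch_true hx, ch_true hz]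
          norm_num
        · rw [ch_false (fun h => hz (h2.1 h.2).2), ch_false hz]
          ring
      · rw [ch_false (fun h => hx (h2.1 h.2).1), ch_false hx]
        ring
    · rw [ch_false (fun h => hP h.1), ch_false hP]
      ring
  simp only [h1]
  rw [show (cd G u v : ℝ) = ∑ x : V, ch (x ∈ cn G u v) from (sum_ch _).symm, sq,
    Finset.sum_mul_sum, Finset.mul_sum]
  refine Finset.sum_congr rfl fun x _ => ?_
  rw [Finset.mul_sum]

theorem pf_SPL (hDCT : T_DCT) : T_SPL := by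
  intro k T M ε δ hk hM hε V _ G hG hIs
  -- the pointwise bound
  have hpt : ∀ x z y : V, ch (y ∈ cn G x z) - ch (y ∈ Sp T ε G x z) ≤
      ∑ y' : V, ch (Im T ε G y y' ∧ y ∈ cn G x z ∧ y' ∈ cn G x z) +
      ∑ y1 : V, ∑ y3 : V, ch ((Dp ε G y y1 ∧ Dp ε G y y3 ∧ Lt T G y1 y3) ∧
        y1 ∈ cn G x z ∧ y3 ∈ cn G x z) := by
    intro x z y
    have n1 : 0 ≤ ∑ y' : V, ch (Im T ε G y y' ∧ y ∈ cn G x z ∧ y' ∈ cn G x z) :=
      Finset.sum_nonneg fun _ _ => ch_nonneg _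
    have n2 : 0 ≤ ∑ y1 : V, ∑ y3 : V, ch ((Dp ε G y y1 ∧ Dp ε G y y3 ∧ Lt T G y1 y3) ∧
        y1 ∈ cn G x z ∧ y3 ∈ cn G x z) :=
      Finset.sum_nonneg fun _ _ => Finset.sum_nonneg fun _ _ => ch_nonneg _
    by_cases hc : y ∈ cn G x z
    · by_cases hs : y ∈ Sp T ε G x z
      · rw [ch_true hc, ch_true hs]
        linarith
      · rw [ch_true hc, ch_false hs]
        rw [mem_Sp] at hs
        by_cases h1 : ∀ y' ∈ cn G x z, ¬ Im T ε G y y'
        · have h2 : ∃ y1 ∈ cn G x z, ∃ y3 ∈ cn G x z, Dp ε G y y1 ∧ Dp ε G y y3 ∧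
              Lt T G y1 y3 := by
            by_contra hno
            refine hs ⟨hc, h1, fun y1 hy1 y3 hy3 d1 d3 hl => ?_⟩
            exact hno ⟨y1, hy1, y3, hy3, d1, d3, hl⟩
          obtain ⟨y1, hy1, y3, hy3, hd⟩ := h2
          have e1 : (1 : ℝ) ≤ ∑ y1 : V, ∑ y3 : V, ch ((Dp ε G y y1 ∧ Dp ε G y y3 ∧
              Lt T G y1 y3) ∧ y1 ∈ cn G x z ∧ y3 ∈ cn G x z) := by
            calc (1 : ℝ) = ch ((Dp ε G y y1 ∧ Dp ε G y y3 ∧ Lt T G y1 y3) ∧
                  y1 ∈ cn G x z ∧ y3 ∈ cn G x z) := (ch_true ⟨hd, hy1, hy3⟩).symm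
              _ ≤ ∑ y3 : V, ch ((Dp ε G y y1 ∧ Dp ε G y y3 ∧ Lt T G y1 y3) ∧
                  y1 ∈ cn G x z ∧ y3 ∈ cn G x z) :=
                Finset.single_le_sum (f := fun y3 : V => ch ((Dp ε G y y1 ∧ Dp ε G y y3 ∧
                  Lt T G y1 y3) ∧ y1 ∈ cn G x z ∧ y3 ∈ cn G x z))
                  (fun _ _ => ch_nonneg _) (Finset.mem_univ y3)
              _ ≤ _ := Finset.single_le_sum (f := fun y1 : V => ∑ y3 : V,
                  ch ((Dp ε G y y1 ∧ Dp ε G y y3 ∧ Lt T G y1 y3) ∧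
                    y1 ∈ cn G x z ∧ y3 ∈ cn G x z))
                  (fun _ _ => Finset.sum_nonneg fun _ _ => ch_nonneg _) (Finset.mem_univ y1)
          linarith
        · push Not at h1
          obtain ⟨y', hy', hI⟩ := h1
          have e1 : (1 : ℝ) ≤ ∑ y' : V, ch (Im T ε G y y' ∧ y ∈ cn G x z ∧ y' ∈ cn G x z) := by
            calc (1 : ℝ) = ch (Im T ε G y y' ∧ y ∈ cn G x z ∧ y' ∈ cn G x z) :=
                  (ch_true ⟨hI, hc, hy'⟩).symm
              _ ≤ _ := Finset.single_le_sum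
                (f := fun y' : V => ch (Im T ε G y y' ∧ y ∈ cn G x z ∧ y' ∈ cn G x z))
                (fun _ _ => ch_nonneg _) (Finset.mem_univ y')
          linarith
    · rw [ch_false hc]
      have := ch_nonneg (y ∈ Sp T ε G x z)
      linarith
  have hxz : ∀ x z : V, ((cn G x z).card : ℝ) - (Sp T ε G x z).card ≤
      ∑ y : V, (∑ y' : V, ch (Im T ε G y y' ∧ y ∈ cn G x z ∧ y' ∈ cn G x z) +
      ∑ y1 : V, ∑ y3 : V, ch ((Dp ε G y y1 ∧ Dp ε G y y3 ∧ Lt T G y1 y3) ∧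
        y1 ∈ cn G x z ∧ y3 ∈ cn G x z)) := by
    intro x z
    rw [← sum_ch, ← sum_ch, ← Finset.sum_sub_distrib]
    exact Finset.sum_le_sum fun y _ => hpt x z y
  refine (Finset.sum_le_sum fun x _ => Finset.sum_le_sum fun z _ => hxz x z).trans ?_
  -- exchange the sums
  have hex : ∑ x : V, ∑ z : V, ∑ y : V,
      (∑ y' : V, ch (Im T ε G y y' ∧ y ∈ cn G x z ∧ y' ∈ cn G x z) +
      ∑ y1 : V, ∑ y3 : V, ch ((Dp ε G y y1 ∧ Dp ε G y y3 ∧ Lt T G y1 y3) ∧
        y1 ∈ cn G x z ∧ y3 ∈ cn G x z)) =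
      ∑ y : V, (∑ y' : V, ch (Im T ε G y y') * (cd G y y' : ℝ) ^ 2 +
      ∑ y1 : V, ∑ y3 : V, ch (Dp ε G y y1 ∧ Dp ε G y y3 ∧ Lt T G y1 y3) *
        (cd G y1 y3 : ℝ) ^ 2) := by
    calc _ = ∑ x : V, ∑ y : V, ∑ z : V,
        (∑ y' : V, ch (Im T ε G y y' ∧ y ∈ cn G x z ∧ y' ∈ cn G x z) +
        ∑ y1 : V, ∑ y3 : V, ch ((Dp ε G y y1 ∧ Dp ε G y y3 ∧ Lt T G y1 y3) ∧
          y1 ∈ cn G x z ∧ y3 ∈ cn G x z)) := Finset.sum_congr rfl fun x _ => Finset.sum_comm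
      _ = ∑ y : V, ∑ x : V, ∑ z : V,
        (∑ y' : V, ch (Im T ε G y y' ∧ y ∈ cn G x z ∧ y' ∈ cn G x z) +
        ∑ y1 : V, ∑ y3 : V, ch ((Dp ε G y y1 ∧ Dp ε G y y3 ∧ Lt T G y1 y3) ∧
          y1 ∈ cn G x z ∧ y3 ∈ cn G x z)) := Finset.sum_comm
      _ = _ := by
        refine Finset.sum_congr rfl fun y _ => ?_
        simp only [Finset.sum_add_distrib]
        congr 1
        · calc ∑ x : V, ∑ z : V, ∑ y' : V,
                ch (Im T ε G y y' ∧ y ∈ cn G x z ∧ y' ∈ cn G x z) =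
                ∑ x : V, ∑ y' : V, ∑ z : V,
                ch (Im T ε G y y' ∧ y ∈ cn G x z ∧ y' ∈ cn G x z) :=
                Finset.sum_congr rfl fun x _ => Finset.sum_comm
            _ = ∑ y' : V, ∑ x : V, ∑ z : V,
                ch (Im T ε G y y' ∧ y ∈ cn G x z ∧ y' ∈ cn G x z) := Finset.sum_comm
            _ = _ := Finset.sum_congr rfl fun y' _ => pair_sum G _ y y'
        · calc ∑ x : V, ∑ z : V, ∑ y1 : V, ∑ y3 : V,
                ch ((Dp ε G y y1 ∧ Dp ε G y y3 ∧ Lt T G y1 y3) ∧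
                  y1 ∈ cn G x z ∧ y3 ∈ cn G x z) =
                ∑ x : V, ∑ y1 : V, ∑ z : V, ∑ y3 : V,
                ch ((Dp ε G y y1 ∧ Dp ε G y y3 ∧ Lt T G y1 y3) ∧
                  y1 ∈ cn G x z ∧ y3 ∈ cn G x z) :=
                Finset.sum_congr rfl fun x _ => Finset.sum_comm
            _ = ∑ y1 : V, ∑ x : V, ∑ z : V, ∑ y3 : V,
                ch ((Dp ε G y y1 ∧ Dp ε G y y3 ∧ Lt T G y1 y3) ∧
                  y1 ∈ cn G x z ∧ y3 ∈ cn G x z) := Finset.sum_comm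
            _ = _ := by
              refine Finset.sum_congr rfl fun y1 _ => ?_
              calc ∑ x : V, ∑ z : V, ∑ y3 : V,
                    ch ((Dp ε G y y1 ∧ Dp ε G y y3 ∧ Lt T G y1 y3) ∧
                      y1 ∈ cn G x z ∧ y3 ∈ cn G x z) =
                    ∑ x : V, ∑ y3 : V, ∑ z : V,
                    ch ((Dp ε G y y1 ∧ Dp ε G y y3 ∧ Lt T G y1 y3) ∧
                      y1 ∈ cn G x z ∧ y3 ∈ cn G x z) :=
                    Finset.sum_congr rfl fun x _ => Finset.sum_comm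
                _ = ∑ y3 : V, ∑ x : V, ∑ z : V,
                    ch ((Dp ε G y y1 ∧ Dp ε G y y3 ∧ Lt T G y1 y3) ∧
                      y1 ∈ cn G x z ∧ y3 ∈ cn G x z) := Finset.sum_comm
                _ = _ := Finset.sum_congr rfl fun y3 _ => pair_sum G _ y1 y3
  rw [hex]
  -- the bounds
  have hb : ∀ y : V, ∑ y' : V, ch (Im T ε G y y') * (cd G y y' : ℝ) ^ 2 +
      ∑ y1 : V, ∑ y3 : V, ch (Dp ε G y y1 ∧ Dp ε G y y3 ∧ Lt T G y1 y3) *
        (cd G y1 y3 : ℝ) ^ 2 ≤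
      δ * Fintype.card V + (C2 k M / ε ^ 2) ^ 2 * (T : ℝ) ^ 2 := by
    intro y
    have h1 : ∑ y' : V, ch (Im T ε G y y') * (cd G y y' : ℝ) ^ 2 = Is T ε G y := by
      unfold Is
      refine Finset.sum_congr rfl fun y' _ => ?_
      unfold ch
      split_ifs <;> simp
    have h2 : ∑ y1 : V, ∑ y3 : V, ch (Dp ε G y y1 ∧ Dp ε G y y3 ∧ Lt T G y1 y3) *
        (cd G y1 y3 : ℝ) ^ 2 ≤
        ∑ y1 : V, ∑ y3 : V, ch (Dp ε G y y1) * ch (Dp ε G y y3) * (T : ℝ) ^ 2 := by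
      refine Finset.sum_le_sum fun y1 _ => Finset.sum_le_sum fun y3 _ => ?_
      by_cases h : Dp ε G y y1 ∧ Dp ε G y y3 ∧ Lt T G y1 y3
      · rw [ch_true h, ch_true h.1, ch_true h.2.1, one_mul, one_mul, one_mul]
        have h3 : (cd G y1 y3 : ℝ) ≤ T := by exact_mod_cast h.2.2.2.le
        exact pow_le_pow_left₀ (Nat.cast_nonneg _) h3 2
      · rw [ch_false h, zero_mul]
        exact mul_nonneg (mul_nonneg (ch_nonneg _) (ch_nonneg _)) (sq_nonneg _)
    have h4 : ∑ y1 : V, ∑ y3 : V, ch (Dp ε G y y1) * ch (Dp ε G y y3) * (T : ℝ) ^ 2 =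
        ((univ.filter (fun v => Dp ε G y v)).card : ℝ) ^ 2 * (T : ℝ) ^ 2 := by
      have h5 : ((univ.filter (fun v => Dp ε G y v)).card : ℝ) = ∑ v : V, ch (Dp ε G y v) := by
        rw [← sum_ch]
        refine Finset.sum_congr rfl fun v _ => ?_
        by_cases h : Dp ε G y v
        · rw [ch_true h, ch_true (Finset.mem_filter.2 ⟨Finset.mem_univ v, h⟩)]
        · rw [ch_false h, ch_false (fun h' => h (Finset.mem_filter.1 h').2)]
      have h6 : ((univ.filter (fun v => Dp ε G y v)).card : ℝ) ^ 2 =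
          ∑ y1 : V, ∑ y3 : V, ch (Dp ε G y y1) * ch (Dp ε G y y3) := by
        rw [h5, sq, Finset.sum_mul_sum]
      rw [h6, Finset.sum_mul]
      refine Finset.sum_congr rfl fun y1 _ => ?_
      rw [Finset.sum_mul]
    have h6 := hDCT k M ε hk hM hε V G hG y
    have h7 : ((univ.filter (fun v => Dp ε G y v)).card : ℝ) ^ 2 ≤ (C2 k M / ε ^ 2) ^ 2 :=
      pow_le_pow_left₀ (Nat.cast_nonneg _) h6 2
    have h8 := hIs y
    rw [h1]
    rw [h4] at h2
    have h9 := mul_le_mul_of_nonneg_right h7 (sq_nonneg (T : ℝ))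
    linarith
  refine (Finset.sum_le_sum fun y _ => hb y).trans (le_of_eq ?_)
  rw [Finset.sum_const, Finset.card_univ, nsmul_eq_mul]
  ring

end Pool.Agent.H52.HKB
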